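import Pool.Agent.Helper19.RD.Stmts8

/-! Row WL2 of project RD, form rd8 (MP_b7477f_nt): weighted large sieve for the Jacobi symbol in
two variables. -/

set_option autoImplicit false

namespace Pool.Agent.Helper96.RD8

open Finset Pool.Agent.Helper18.RD Pool.Agent.Helper19.RD

/-- the odd numbers in `[A, B]` -/
def RR (A B : ℕ) : Finset ℕ := (Icc A B).filter (fun r => Odd r)

theorem fi_ge (h : ST_FI6) (K z x : ℕ) (U : Finset ℕ) (g : ℕ → ℝ) (hK : 1 ≤ K) (hz : 1 ≤ z)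
    (hg : ∀ r, 0 ≤ g r) (hU : ∀ p ∈ U, p.Prime ∧ p ≠ 2 ∧ z ≤ p ∧ p ≤ x) :
    ∑ t ∈ Fintype.piFinset (fun _ : Fin K => U), g (∏ i, t i) ≤
      (K : ℝ) ^ K * ∑ r ∈ RR (z ^ K) (x ^ K), g r := by
  have h1 := h K x U (fun r => if z ^ K ≤ r then g r else 0) hK
    (fun r => by
      split_ifs
      · exact hg r
      · exact le_rfl)
    (fun p hp => ⟨(hU p hp).1, (hU p hp).2.1, (hU p hp).2.2.2⟩)
  have h2 : ∑ t ∈ Fintype.piFinset (fun _ : Fin K => U), g (∏ i, t i) =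
      ∑ t ∈ Fintype.piFinset (fun _ : Fin K => U),
        (fun r => if z ^ K ≤ r then g r else 0) (∏ i, t i) := by
    refine sum_congr rfl fun t ht => ?_
    rw [Fintype.mem_piFinset] at ht
    have h3 : z ^ K ≤ ∏ i, t i := by
      calc z ^ K = ∏ _i : Fin K, z := by simp
        _ ≤ ∏ i, t i := prod_le_prod' fun i _ => (hU _ (ht i)).2.2.1
    simp only
    rw [if_pos h3]
  have h4 : ∑ r ∈ (Icc 1 (x ^ K)).filter (fun r => Odd r), (if z ^ K ≤ r then g r else 0) =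
      ∑ r ∈ RR (z ^ K) (x ^ K), g r := by
    rw [← sum_filter, RR, filter_filter]
    refine sum_congr ?_ fun _ _ => rfl
    ext r
    simp only [mem_filter, mem_Icc]
    have h5 : 1 ≤ z ^ K := Nat.one_le_pow _ _ hz
    constructor
    · rintro ⟨⟨_, b⟩, c, d⟩
      exact ⟨⟨d, b⟩, c⟩
    · rintro ⟨⟨a, b⟩, c⟩
      exact ⟨⟨h5.trans a, b⟩, c, a⟩
  rw [h2]
  refine h1.trans (le_of_eq ?_)
  rw [← h4]

theorem har (A x K : ℕ) (hA : 1 ≤ A) :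
    ∑ r ∈ RR A (x ^ K), 1 / (r : ℝ) ≤ 1 + K * Real.log x := by
  have h1 : ∑ r ∈ RR A (x ^ K), 1 / (r : ℝ) ≤ ∑ r ∈ Icc 1 (x ^ K), 1 / (r : ℝ) := by
    refine sum_le_sum_of_subset_of_nonneg ?_ fun r _ _ => by positivity
    intro r hr
    rw [RR, mem_filter, mem_Icc] at hr
    rw [mem_Icc]
    exact ⟨hA.trans hr.1.1, hr.1.2⟩
  have h2 : ∑ r ∈ Icc 1 (x ^ K), 1 / (r : ℝ) = ((harmonic (x ^ K) : ℚ) : ℝ) := by
    rw [harmonic_eq_sum_Icc]
    push_cast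
    refine sum_congr rfl fun r _ => ?_
    rw [one_div]
  have h3 := harmonic_le_one_add_log (x ^ K)
  rw [h2] at h1
  refine h1.trans (h3.trans (le_of_eq ?_))
  push_cast
  rw [Real.log_pow]

theorem triv (n : ℤ) (A x K : ℕ) (hA : 1 ≤ A) :
    |∑ r ∈ RR A (x ^ K), (jacobiSym n r : ℝ) / r| ≤ 1 + K * Real.log x := by
  refine (abs_sum_le_sum_abs _ _).trans (le_trans (sum_le_sum fun r _ => ?_) (har A x K hA))
  rw [abs_div, Nat.abs_cast]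
  have h1 : |(jacobiSym n r : ℝ)| ≤ 1 := by
    rcases jacobiSym.trichotomy n r with h | h | h <;> rw [h] <;> norm_num
  exact div_le_div_of_nonneg_right h1 (Nat.cast_nonneg r)

theorem core (hP : ST_PERW) {ι : Type} [DecidableEq ι] (T : Finset ι) (C D : ι → ℤ)
    (K0 K z x : ℕ) (hz : 1 ≤ z)
    (hT : ∀ t ∈ T, C t ≠ 0 ∧ |C t| ≤ K0 ∧ D t ≠ 0 ∧ |D t| ≤ K0) :
    ∑ r ∈ RR (z ^ K) (x ^ K), ∑ r' ∈ RR (z ^ K) (x ^ K), (1 / (r : ℝ)) * (1 / (r' : ℝ)) *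
      (∑ a ∈ T, (jacobiSym (C a) r : ℝ) * (jacobiSym (D a) r' : ℝ)) ^ 2 ≤
    (1 + K * Real.log x) ^ 2 *
      (((T ×ˢ T).filter (fun x => IsSquare (C x.1 * C x.2) ∧ IsSquare (D x.1 * D x.2))).card : ℝ)
      + (1 + K * Real.log x) * (8 * (K0 : ℝ) ^ 2 / (z : ℝ) ^ K) * (T.card : ℝ) ^ 2 := by
  have hA : 1 ≤ z ^ K := Nat.one_le_pow _ _ hz
  obtain ⟨L, hL⟩ : ∃ L : ℝ, L = 1 + K * Real.log x := ⟨_, rfl⟩
  obtain ⟨E, hE⟩ : ∃ E : ℝ, E = 8 * (K0 : ℝ) ^ 2 / (z : ℝ) ^ K := ⟨_, rfl⟩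
  obtain ⟨Q, hQ⟩ : ∃ Q : Finset ℕ, Q = RR (z ^ K) (x ^ K) := ⟨_, rfl⟩
  obtain ⟨f, hf⟩ : ∃ f : ℤ → ℝ, f = fun n => ∑ r ∈ Q, (jacobiSym n r : ℝ) / r := ⟨_, rfl⟩
  have hL0 : 0 ≤ L := by
    rw [hL]
    have : 0 ≤ Real.log x := Real.log_natCast_nonneg x
    positivity
  have hE0 : 0 ≤ E := by
    rw [hE]
    positivity
  have hf1 : ∀ n, |f n| ≤ L := by
    intro n
    rw [hf, hL, hQ]
    exact triv n _ x K hA
  have hf2 : ∀ a b : ℤ, a ≠ 0 → b ≠ 0 → |a| ≤ K0 → |b| ≤ K0 → ¬ IsSquare (a * b) →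
      |f (a * b)| ≤ E := by
    intro a b ha hb ha' hb' hs
    have h1 := hP (a * b) (mul_ne_zero ha hb) hs (z ^ K) (x ^ K) hA
    rw [hf, hQ, hE]
    refine h1.trans ?_
    push_cast
    refine div_le_div_of_nonneg_right ?_ (by positivity)
    rw [abs_mul]
    have h2 : |(a : ℝ)| ≤ K0 := by exact_mod_cast ha'
    have h3 : |(b : ℝ)| ≤ K0 := by exact_mod_cast hb'
    have h4 := mul_le_mul h2 h3 (abs_nonneg _) (Nat.cast_nonneg _)
    nlinarith [h4]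
  have e1 : ∑ r ∈ Q, ∑ r' ∈ Q, (1 / (r : ℝ)) * (1 / (r' : ℝ)) *
      (∑ a ∈ T, (jacobiSym (C a) r : ℝ) * (jacobiSym (D a) r' : ℝ)) ^ 2 =
      ∑ a ∈ T, ∑ b ∈ T, f (C a * C b) * f (D a * D b) := by
    have e2 : ∀ r r' : ℕ, (1 / (r : ℝ)) * (1 / (r' : ℝ)) *
        (∑ a ∈ T, (jacobiSym (C a) r : ℝ) * (jacobiSym (D a) r' : ℝ)) ^ 2 =
        ∑ a ∈ T, ∑ b ∈ T, ((jacobiSym (C a * C b) r : ℝ) / r) *
          ((jacobiSym (D a * D b) r' : ℝ) / r') := by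
      intro r r'
      rw [sq, sum_mul_sum, mul_sum]
      refine sum_congr rfl fun a _ => ?_
      rw [mul_sum]
      refine sum_congr rfl fun b _ => ?_
      rw [jacobiSym.mul_left, jacobiSym.mul_left]
      push_cast
      ring
    simp only [e2]
    have e3 : ∀ r : ℕ, ∑ r' ∈ Q, ∑ a ∈ T, ∑ b ∈ T, ((jacobiSym (C a * C b) r : ℝ) / r) *
          ((jacobiSym (D a * D b) r' : ℝ) / r') =
        ∑ a ∈ T, ∑ b ∈ T, ((jacobiSym (C a * C b) r : ℝ) / r) * f (D a * D b) := by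
      intro r
      rw [sum_comm]
      refine sum_congr rfl fun a _ => ?_
      rw [sum_comm]
      refine sum_congr rfl fun b _ => ?_
      rw [← mul_sum, hf]
    simp only [e3]
    rw [sum_comm]
    refine sum_congr rfl fun a _ => ?_
    rw [sum_comm]
    refine sum_congr rfl fun b _ => ?_
    rw [← sum_mul]
    congr 1
    rw [hf]
  rw [← hQ, e1, ← hL, ← hE]
  classical
  have e4 : ∀ a ∈ T, ∀ b ∈ T, f (C a * C b) * f (D a * D b) ≤
      L ^ 2 * (if IsSquare (C a * C b) ∧ IsSquare (D a * D b) then 1 else 0) + L * E := by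
    intro a ha b hb
    have ha1 := hT a ha
    have hb1 := hT b hb
    refine (le_abs_self _).trans ?_
    rw [abs_mul]
    by_cases h1 : IsSquare (C a * C b)
    · by_cases h2 : IsSquare (D a * D b)
      · rw [if_pos ⟨h1, h2⟩]
        have h3 := mul_le_mul (hf1 (C a * C b)) (hf1 (D a * D b)) (abs_nonneg _) hL0
        have h4 := mul_nonneg hL0 hE0
        nlinarith [h3, h4]
      · rw [if_neg (fun h => h2 h.2)]
        have h3 := mul_le_mul (hf1 (C a * C b))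
          (hf2 _ _ ha1.2.2.1 hb1.2.2.1 ha1.2.2.2 hb1.2.2.2 h2) (abs_nonneg _) hL0
        linarith
    · rw [if_neg (fun h => h1 h.1)]
      have h3 := mul_le_mul (hf2 _ _ ha1.1 hb1.1 ha1.2.1 hb1.2.1 h1) (hf1 (D a * D b))
        (abs_nonneg _) hE0
      linarith
  refine (sum_le_sum fun a ha => sum_le_sum fun b hb => e4 a ha b hb).trans (le_of_eq ?_)
  have e5 : (((T ×ˢ T).filter
      (fun x => IsSquare (C x.1 * C x.2) ∧ IsSquare (D x.1 * D x.2))).card : ℝ) =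
      ∑ a ∈ T, ∑ b ∈ T, (if IsSquare (C a * C b) ∧ IsSquare (D a * D b) then (1 : ℝ) else 0) := by
    rw [card_filter, sum_product]
    push_cast
    rfl
  rw [e5]
  simp only [sum_add_distrib, ← mul_sum, sum_const, nsmul_eq_mul]
  ring

theorem wl2 (hP : ST_PERW) (hF : ST_FI6) : ST_WL2 := by
  intro ι _ T C D K0 K z x U hK hz _ hT hU
  have hc : ∀ t : Fin K → ℕ, ∏ i, 1 / (t i : ℝ) = 1 / ((∏ i, t i : ℕ) : ℝ) := by
    intro t
    rw [prod_div_distrib, prod_const_one]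
    push_cast
    rfl
  have h1 : ∀ t : Fin K → ℕ, ∑ t' ∈ Fintype.piFinset (fun _ : Fin K => U),
      (∏ i, 1 / (t i : ℝ)) * (∏ i, 1 / (t' i : ℝ)) *
      (∑ a ∈ T, (jacobiSym (C a) (∏ i, t i) : ℝ) * (jacobiSym (D a) (∏ i, t' i) : ℝ)) ^ 2 ≤
      (K : ℝ) ^ K * ∑ r' ∈ RR (z ^ K) (x ^ K), (1 / ((∏ i, t i : ℕ) : ℝ)) * (1 / (r' : ℝ)) *
        (∑ a ∈ T, (jacobiSym (C a) (∏ i, t i) : ℝ) * (jacobiSym (D a) r' : ℝ)) ^ 2 := by
    intro t
    have h2 := fi_ge hF K z x U (fun r' => (1 / ((∏ i, t i : ℕ) : ℝ)) * (1 / (r' : ℝ)) *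
        (∑ a ∈ T, (jacobiSym (C a) (∏ i, t i) : ℝ) * (jacobiSym (D a) r' : ℝ)) ^ 2) hK hz
        (fun r => by positivity) hU
    refine le_trans (le_of_eq ?_) h2
    refine sum_congr rfl fun t' _ => ?_
    rw [hc, hc]
  have h3 := fi_ge hF K z x U (fun r => ∑ r' ∈ RR (z ^ K) (x ^ K), (1 / (r : ℝ)) *
    (1 / (r' : ℝ)) * (∑ a ∈ T, (jacobiSym (C a) r : ℝ) * (jacobiSym (D a) r' : ℝ)) ^ 2) hK hz
    (fun r => sum_nonneg fun r' _ => by positivity) hU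
  have h4 := core hP T C D K0 K z x hz hT
  have hKK : (0 : ℝ) ≤ (K : ℝ) ^ K := by positivity
  refine (sum_le_sum fun t _ => h1 t).trans ?_
  rw [← mul_sum]
  refine (mul_le_mul_of_nonneg_left (h3.trans (mul_le_mul_of_nonneg_left h4 hKK)) hKK).trans
    (le_of_eq ?_)
  rw [← mul_assoc, ← pow_add, two_mul]

end Pool.Agent.Helper96.RD8

namespace Pool.Agent.Helper19.RD

open Pool.Agent.Helper18.RD

theorem st_WL2 (hP : ST_PERW) (hF : ST_FI6) : ST_WL2 := Pool.Agent.Helper96.RD8.wl2 hP hF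

end Pool.Agent.Helper19.RD
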